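import Pool.Agent.Helper156.RP.Final

/-!
# Taut spherically substantial embeddings of `ℝP³` in `S⁶` and in `S⁷`

Both questions have a positive answer. All definitions of the statement are in
`Pool/Agent/Helper156/RP/Defs.lean`:

* `RP3`: the lines of `ℝ⁴`, with the quotient topology and the four affine charts;
* `bettiSum k X`: the sum of the dimensions of the singular homology groups of `X` over `k`;
* `IsMorse`, `IsCritical`: Morse functions and critical points;
* `IsTaut n f`: `f` is a smooth embedding of the `n`-manifold `M` in `ℝ^N` and every Morse function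
  `x ↦ ‖p - f x‖²` has exactly `∑ᵢ dim H_i(M; ℤ/2)` critical points;
* `IsSphericallySubstantial f`: the image of `f` is contained in no affine hyperplane;
* `HasTautEmbInSphere n M N`: there is a taut spherically substantial embedding of `M` in the unit
  sphere of `ℝ^N`.

The embeddings. Write the points of `ℝP³` as `[z : w]` with `(z, w) ∈ ℂ² = ℝ⁴`, `|z|² + |w|² = 1`:

* `S⁷ ⊂ ℂ⁴`: `[z : w] ↦ (z², w², z w, z \bar w)`;
* `S⁶ ⊂ ℝ × ℂ³`: `[z : w] ↦ (|z|² - |w|², √2 z², √2 w², 2√2 z w) / √3`.

Idea. The coordinates are quadratic forms, so (the image being in the unit sphere) each squared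
distance function is a constant plus the Rayleigh quotient of a symmetric `4 × 4` matrix. Its
critical points are the eigenlines. If an eigenvalue is multiple, there is a projective line of
critical points and the function is not Morse; otherwise there are exactly four critical points.
The number `∑ᵢ dim H_i(ℝP³; ℤ/2) = 4` is proved by a nerve theorem for a cover by 40 open sets.
-/

namespace Pool.Agent.Results.MP_cd2c38_gt.TautProjectiveSpace

open Pool.Agent.Helper156.RP
open scoped Manifold ContDiff

/-- `ℝP³` is a compact smooth manifold whose Betti numbers mod 2 have the sum `4`; it has a taut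
spherically substantial embedding in `S⁶ ⊂ ℝ⁷` and one in `S⁷ ⊂ ℝ⁸`. -/
theorem result :
    (IsManifold (𝓡 3) ∞ RP3 ∧ CompactSpace RP3 ∧ T2Space RP3 ∧ bettiSum (ZMod 2) RP3 = 4) ∧
      HasTautEmbInSphere 3 RP3 7 ∧ HasTautEmbInSphere 3 RP3 8 :=
  ⟨⟨J30370.isManifold_RP3, J30371.compactSpace_RP3, J30371.t2Space_RP3, bettiSum_RP3⟩,
    exists_taut bettiSum_RP3 J30438.family7, exists_taut bettiSum_RP3 J30437.family8⟩

end Pool.Agent.Results.MP_cd2c38_gt.TautProjectiveSpace
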